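import Pool.Agent.H83.KM2.Stm

set_option autoImplicit false

namespace Pool.Agent.H65.KM2

open Finset Pool.Agent.H83.KM Pool.Agent.H83.KM2

/-- the point of the line `a b` -/
noncomputable def pt (a b : ℝ × ℝ) (t : ℝ) : ℝ × ℝ :=
  (a.1 + t * (b.1 - a.1), a.2 + t * (b.2 - a.2))

theorem Dl_pt (a b q r : ℝ × ℝ) (t : ℝ) :
    Dl (pt a b t) q r = Dl a q r + t * (Dl b q r - Dl a q r) := by
  unfold Dl pt; ring

theorem fin_zero (α β : ℝ) (h : α ≠ 0 ∨ β ≠ 0) : {t : ℝ | α + t * (β - α) = 0}.Finite := by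
  by_cases hab : β - α = 0
  · have : {t : ℝ | α + t * (β - α) = 0} = ∅ := by
      ext t
      simp only [Set.mem_setOf_eq, Set.mem_empty_iff_false, iff_false]
      rw [hab]
      intro h'
      rcases h with h | h
      · exact h (by linarith)
      · exact h (by linarith)
    rw [this]; exact Set.finite_empty
  · refine (Set.finite_singleton (-α / (β - α))).subset ?_
    intro t ht
    simp only [Set.mem_setOf_eq] at ht
    simp only [Set.mem_singleton_iff]
    rw [eq_div_iff hab]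
    linarith

theorem choose_t {n : ℕ} (p : Fin n → ℝ × ℝ) (hp : Gp p) (x y : Fin n) (hxy : x ≠ y) :
    ∃ t : ℝ, ∀ q r : Fin n, q ≠ r → ¬ (q = x ∧ r = y) → ¬ (q = y ∧ r = x) →
      Dl (pt (p x) (p y) t) (p q) (p r) ≠ 0 := by
  have hfin : (⋃ q : Fin n, ⋃ r : Fin n, {t : ℝ | (q ≠ r ∧ ¬ (q = x ∧ r = y) ∧ ¬ (q = y ∧ r = x)) ∧
      Dl (p x) (p q) (p r) + t * (Dl (p y) (p q) (p r) - Dl (p x) (p q) (p r)) = 0}).Finite := by
    refine Set.finite_iUnion fun q => Set.finite_iUnion fun r => ?_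
    by_cases hc : (q ≠ r ∧ ¬ (q = x ∧ r = y) ∧ ¬ (q = y ∧ r = x))
    · refine (fin_zero (Dl (p x) (p q) (p r)) (Dl (p y) (p q) (p r)) ?_).subset (fun t ht => ht.2)
      obtain ⟨h1, h2, h3⟩ := hc
      by_cases hq : q = x
      · right
        refine hp.dl y q r ?_ ?_ h1
        · rw [hq]; exact hxy.symm
        · intro h; exact h2 ⟨hq, h.symm⟩
      · by_cases hr : r = x
        · right
          refine hp.dl y q r ?_ ?_ h1
          · intro h; exact h3 ⟨h.symm, hr⟩
          · rw [hr]; exact hxy.symm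
        · left
          exact hp.dl x q r (Ne.symm hq) (Ne.symm hr) h1
    · refine Set.Finite.subset Set.finite_empty ?_
      intro t ht
      exact absurd ht.1 hc
  obtain ⟨t, ht⟩ := hfin.infinite_compl.nonempty
  refine ⟨t, fun q r h1 h2 h3 h => ht ?_⟩
  rw [Dl_pt] at h
  exact Set.mem_iUnion.2 ⟨q, Set.mem_iUnion.2 ⟨r, ⟨⟨h1, h2, h3⟩, h⟩⟩⟩

theorem cub_smul (Φ : Fin 3 → Fin 3 → Fin 3 → ℝ) (s : ℝ) (w : Fin 3 → ℝ) :
    cub Φ (fun b => s * w b) = s ^ 3 * cub Φ w := by
  unfold cub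
  simp only [Finset.mul_sum]
  refine Finset.sum_congr rfl fun a _ => Finset.sum_congr rfl fun b _ =>
    Finset.sum_congr rfl fun c _ => ?_
  ring

theorem qv_swap (a b : ℝ × ℝ) : qv b a = fun i => (-1 : ℝ) * qv a b i := by
  funext i
  fin_cases i <;> simp [qv] <;> ring

theorem qv_pt (a b : ℝ × ℝ) (t : ℝ) : qv (pt a b t) a = fun i => (-t) * qv a b i := by
  funext i
  fin_cases i <;> simp [qv, pt] <;> ring

theorem lin_qv (z a b : ℝ × ℝ) : lin z (qv a b) = Dl z a b := by
  simp [lin, qv, Dl]; ring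

theorem t_HOR (hG : S_GEN) (hC : S_C4) (hP : S_PL3) (hM : S_CMB) : S_HOR := by
  intro n e hE hd hK u hu
  obtain ⟨f, hf, g, hginj, hg, hv⟩ := hM n e hE hd hK u hu
  obtain ⟨p', hp'⟩ := hG n 1
  -- the three neighbours
  have hcard : (univ.filter (fun a => On u (e a))).card = 3 := hu
  let A : Fin 3 → Fin 10 := fun i => ((Finset.equivFinOfCardEq hcard).symm i).1
  have hA : ∀ i, On u (e (A i)) := fun i =>
    (Finset.mem_filter.1 ((Finset.equivFinOfCardEq hcard).symm i).2).2
  have hAinj : Function.Injective A := by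
    intro i j h
    exact (Finset.equivFinOfCardEq hcard).symm.injective (Subtype.ext h)
  have hnb : ∀ i, ∃ v, v ≠ u ∧ (e (A i) = (u, v) ∨ e (A i) = (v, u)) := by
    intro i
    have hlt := hE.2 (A i)
    rcases hA i with h | h
    · exact ⟨(e (A i)).2, by rw [h]; exact hlt.ne', Or.inl (by rw [h])⟩
    · exact ⟨(e (A i)).1, by rw [h]; exact hlt.ne, Or.inr (by rw [h])⟩
  choose nb hnu hnb using hnb
  have hOn : ∀ i, On (nb i) (e (A i)) := by
    intro i
    rcases hnb i with h | h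
    · exact Or.inr (by rw [h])
    · exact Or.inl (by rw [h])
  have hnbinj : Function.Injective nb := by
    intro i j h
    apply hAinj
    apply hE.1
    have h1 := hE.2 (A i)
    have h2 := hE.2 (A j)
    rcases hnb i with hi | hi <;> rcases hnb j with hj | hj
    · rw [hi, hj, h]
    · rw [hi] at h1; rw [hj, ← h] at h2; exact absurd h1 (not_lt_of_gt h2)
    · rw [hi] at h1; rw [hj, ← h] at h2; exact absurd h1 (not_lt_of_gt h2)
    · rw [hi, hj, h]
  set x := (e f).1 with hx
  set y := (e f).2 with hy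
  have hxy : x < y := hE.2 f
  have hxu : x ≠ u := fun h => hf (A 0) (hA 0) u (hA 0) (Or.inl h.symm)
  have hyu : y ≠ u := fun h => hf (A 0) (hA 0) u (hA 0) (Or.inr h.symm)
  have hnx : ∀ i, nb i ≠ x := fun i h => hf (A i) (hA i) (nb i) (hOn i) (Or.inl h)
  have hny : ∀ i, nb i ≠ y := fun i h => hf (A i) (hA i) (nb i) (hOn i) (Or.inr h)
  obtain ⟨t, ht⟩ := choose_t p' hp'.gp x y hxy.ne
  set z : ℝ × ℝ := pt (p' x) (p' y) t with hz
  refine ⟨Function.update p' u z, ?_⟩
  intro Φ hΦ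
  have hpu : Function.update p' u z u = z := Function.update_self _ _ _
  have hpn : ∀ v, v ≠ u → Function.update p' u z v = p' v := fun v hv =>
    Function.update_of_ne hv _ _
  have h1 : ∀ i, cub Φ (qv z (p' (nb i))) = 0 := by
    intro i
    have := hΦ (A i)
    rcases hnb i with h | h
    · rw [h] at this
      simp only [hpu, hpn _ (hnu i)] at this
      exact this
    · rw [h] at this
      simp only [hpu, hpn _ (hnu i)] at this
      rw [qv_swap, cub_smul] at this
      linarith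
  have h2 : cub Φ (qv z (p' x)) = 0 := by
    have := hΦ f
    rw [← hx, ← hy, hpn _ hxu, hpn _ hyu] at this
    rw [hz, qv_pt, cub_smul, this, mul_zero]
  let idx : Fin 4 → Fin n := Fin.cons x nb
  have hidx : Function.Injective idx := by
    rw [Fin.cons_injective_iff]
    exact ⟨by rintro ⟨i, hi⟩; exact hnx i hi, hnbinj⟩
  have hidy : ∀ k, idx k ≠ y := by
    intro k
    refine Fin.cases ?_ (fun i => ?_) k
    · exact hxy.ne
    · exact hny i
  obtain ⟨Q, hQ⟩ := hP z (fun k => p' (idx k)) (by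
      intro j k hjk
      exact ht (idx j) (idx k) (fun h => hjk (hidx h)) (fun h => hidy k h.2) (fun h => hidy j h.1))
    Φ (by
      intro k
      refine Fin.cases ?_ (fun i => ?_) k
      · exact h2
      · exact h1 i)
  have h3 : ∀ k, qua Q (qv (p' (e (g k)).1) (p' (e (g k)).2)) = 0 := by
    intro k
    have hk := hΦ (g k)
    obtain ⟨hgf, hgu⟩ := hg k
    have n1 : (e (g k)).1 ≠ u := fun h => hgu (Or.inl h.symm)
    have n2 : (e (g k)).2 ≠ u := fun h => hgu (Or.inr h.symm)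
    rw [hpn _ n1, hpn _ n2, hQ, lin_qv] at hk
    have hne := ht (e (g k)).1 (e (g k)).2 (hE.2 (g k)).ne
      (fun h => hgf (hE.1 (Prod.ext h.1 h.2)))
      (fun h => by
        have := hE.2 (g k)
        rw [h.1, h.2] at this
        exact absurd this (not_lt_of_gt hxy))
    exact (mul_eq_zero.1 hk).resolve_left hne
  have h4 : ∀ w, qua Q w = 0 := by
    refine hC n 1 p' hp' Q (fun k => e (g k)) ⟨fun a b h => hginj (hE.1 h), fun a => hE.2 (g a)⟩
      h3 ?_
    intro v hv3
    obtain ⟨h, hinj, hdeg, hon⟩ := hv v hv3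
    exact ⟨fun k => e (g (h k)), ⟨fun a b hab => hinj (hginj (hE.1 hab)), fun a => hE.2 _⟩, hdeg,
      fun a => ⟨hon a, h3 (h a)⟩⟩
  intro w
  rw [hQ, h4, mul_zero]

end Pool.Agent.H65.KM2
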